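import Pool.Agent.H467R3.Odd.Final

/-!
# The finitary form of the question has a negative answer

The number of colours that are needed in order to avoid a finite set `R` of differences on the
integers cannot be bounded in terms of the number of colours needed on the primes: for every `k`
there is a finite set `R` such that every colouring of the integers with at most `k` colours has two
integers of the same colour with difference in `R`, while two colours suffice for the primes above
some bound and for all integers prime to some `N`, and three colours suffice for all primes.
-/

set_option autoImplicit false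

namespace Pool.Agent.Results.MP_f6c4b6_nt.FinitaryFailure

/-- For every `k` there are `N > 0` and a finite set `R` of positive integers such that every
colouring of the natural numbers with `k` colours has two numbers of the same colour with
difference in `R`; there is a colouring with two colours for which no two integers prime to `N`, and
no two primes above `N`, of the same colour have a difference in `R`; there is a colouring of all
primes with three colours with the same property. -/
theorem result (k : ℕ) : ∃ (N : ℕ) (R : Finset ℕ), 0 < N ∧ (∀ m ∈ R, 0 < m) ∧
    (∀ c : ℕ → Fin k, ∃ a b : ℕ, a < b ∧ c a = c b ∧ b - a ∈ R) ∧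
    (∃ c : ℕ → Fin 2, ∀ a b : ℕ, a < b → a.Coprime N → b.Coprime N → c a = c b → b - a ∉ R) ∧
    (∃ c : ℕ → Fin 2, ∀ p q : ℕ, p.Prime → q.Prime → N < p → p < q → c p = c q → q - p ∉ R) ∧
    (∃ c : ℕ → Fin 3, ∀ p q : ℕ, p.Prime → q.Prime → p < q → c p = c q → q - p ∉ R) := by
  obtain ⟨N, L, R, h1, _, h3, _, _, h5, h6, h7, h8⟩ :=
    Pool.Agent.H467R3.Odd.main (k + 1) (Nat.succ_le_succ (Nat.zero_le k))
  exact ⟨N, R, h1, h3, h5 k (Nat.lt_succ_self k), h6, h7, h8⟩

end Pool.Agent.Results.MP_f6c4b6_nt.FinitaryFailure
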